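import Pool.Agent.X312.MR.Prim

/-!
# A gap law for the indecomposable summands of the realizations of irreducible motives in `h(X ^
m)`

Let `k` be a finitely generated field of characteristic `0`, `ℓ` a prime, and let `X` be **any**
smooth projective variety over `k`. For `Z` smooth projective over `k` let `H(Z)` be the sum of
the representations `H^i(Z)(⌊i/2⌋)` of the Galois group of `k`, with coefficients in an algebraic
closure `K` of `ℚ_ℓ`, and let `Mot(Z)` be the subspace of `H(Z)` generated by the motivated cycles
over `k`. Let `M = (X ^ m, e)` be **any** irreducible motive with coefficients in `K` (defined by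
motivated correspondences), of rank `D`, and let `V` be **any** indecomposable direct summand of
the realization of `M`. Let `b` be the sum of the Betti numbers of `X`. For all `n ≥ 1` the
multiplicity of `V` as a direct summand of `H(X ^ n)` is at least

`(D - 4 (m + 3) b ^ (m + 5) log (n + 1) / n) dim Mot(X ^ n)`.

Nothing is assumed on `X`. The conjecture Q1 says that `V` is irreducible (and then, by the Tate
conjecture, the realization of `M` is `V`, and `D = dim V`). So, if Q1 is false for one of the
powers of `X`, then there is an indecomposable representation `V`, not irreducible, in the
realization of an irreducible motive `M`, and its multiplicity in `H(X ^ n)` is almost `rank M ≥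
dim V` times the number of the independent motivated cycles on `X ^ n`, for all large `n` (of both
parities).

The Galois group commutes with the motivated correspondences over `k`, and the pairing on
motivated cycles is nondegenerate by the Hodge index theorem (André).

The proof. A homomorphism `V → H(Z)` is split if it has an equivariant retraction; as the
endomorphism ring of `V` is local (Fitting), the homomorphisms which are not split form a
subspace. Let `T(Z)` be the quotient, a functor on correspondences with `e T(P) ≠ 0`, `P = X ^ m`.
Let `z ≠ 0` be in `e T(P)`. If a correspondence `x` has `x z = 0` then `e x e` is not invertible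
on `M`, so it is nilpotent, as `M` is irreducible, and the trace of `e x` vanishes; therefore `dim
T(Z)` is at least the rank of the trace form `(u, v) ↦ tr (e v u)` on the correspondences between
`P` and `Z`, and for `Z = X ^ n` this rank is at least `D - ε` times `dim Mot(X ^ n)`, by the
log-convexity of the sequence of these dimensions and by the symmetric group. The algebraically
closed field of coefficients is used to split off copies of `V` one by one.
-/

set_option autoImplicit false

open CategoryTheory AlgebraicGeometry

universe u v w

namespace Pool.Agent.Results.MP_b4801b_ag.MultiplicityGapLaw

open Pool.Agent.H914 VarClass Obj WeilCohomology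
open Pool.Agent.X312.MR (IsIndecomposable IsSummandOf MultAtLeast)
open Pool.Agent.X312.FC (corrRank rankBound)
open Pool.Agent.X312.FK (composite IrreducibleIn)
open Pool.Agent.X312.FM (Family Has IsRingFamily IsNondeg dimOn Operators IsCompatible)
open Pool.Agent.Y133.Half (pw)

variable {k : Type u} [Field k] {𝒱 : VarClass k} {ops : CycleOps 𝒱}
  {W : WeilCohomology.{u, v} ops}

/-- The sum of the Betti numbers of `X`. -/
noncomputable def totalBetti (W : WeilCohomology.{u, v} ops) (X : 𝒱.Obj) : ℕ :=
  Module.finrank W.K (W.H X)

/-- **The gap law for multiplicities and irreducible motives.** In the intended use `W` is the `ℓ`-adic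
cohomology with coefficients in an algebraic closure of `ℚ_ℓ`, `C` is the family of the spaces generated
by the motivated cycles, `ρ Z` is the action of the Galois group on the sum of the `H^i(Z)(⌊i/2⌋)`, and
`V` is an indecomposable direct summand of the realization of the irreducible motive given by `e`. Here
`corrRank e` is the rank of this motive, `dimOn C Z` is the dimension of `C Z`, and `pw X m` is the
product of `m + 1` copies of `X`. -/
theorem result [IsAlgClosed W.K] (C : Family W) (hC : IsRingFamily C) {G : Type v}
    (ρ : Operators W G) (hρ : IsCompatible C ρ) {V : Type v} [AddCommGroup V] [Module W.K V]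
    [FiniteDimensional W.K V] (τ : G → V → V) (hτ : ∀ g, IsLinearMap W.K (τ g))
    (hV : IsIndecomposable W.K τ) (X : 𝒱.Obj) (hX : ∀ n, IsNondeg C (pw X n)) (m : ℕ)
    (e : W.H ((pw X m).prod (pw X m))) (he : Has C e) (hee : composite W e e = e)
    (hirr : IrreducibleIn (Has C) e)
    (hm : IsSummandOf W.K τ (ρ (pw X m)) (fun x => W.corr e x)) (n : ℕ) :
    MultAtLeast W.K τ (ρ (pw X n))
      (rankBound (corrRank e) (totalBetti W X) (dimOn C (pw X n)) m n) :=
  Pool.Agent.X312.MR.coh_prim hC hρ hτ hV X hX he hee hirr hm n

end Pool.Agent.Results.MP_b4801b_ag.MultiplicityGapLaw
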