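import Pool.Agent.X320.FS.Comm3

/-!
# The semisimplicity of the Galois action spreads from one closed fibre to the whole family

Let `S` be a smooth geometrically connected variety over a number field `K`, with function field `k`, and `X → S` a
smooth projective morphism with generic fibre `X_k`. (Every smooth projective variety over a finitely generated field
`k` of characteristic zero has such a model.) The profinite group `Γ = π₁(S)` is a quotient of `G_k` and acts on
`V = H^i(X_k ⊗ k̄, ℚ_ℓ)`; its normal subgroup `Δ = π₁(S ⊗ K̄)` acts semisimply by Deligne's theorem (Théorie de Hodge
II, 4.2.6). A closed point `s` with residue field `K(s)` gives a homomorphism `G_{K(s)} → Γ` with image `D_s`; the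
subgroup `Δ D_s` has index `[K(s) : K]` in `Γ`, and the restriction of `V` to `D_s` is the representation
`H^i(X_s ⊗ K̄, ℚ_ℓ)` of the Galois group of the number field `K(s)` (smooth and proper base change).

**Theorem.** If `V` is semisimple for the groups `Δ` and `D`, where `Δ` is normal and `Δ D` has finite index, then `V`
is semisimple for `Γ` and for every subgroup `D'` whose image is of finite index in the image of `Γ`.

So if the conjecture of Grothendieck and Serre is true for one closed fibre `X_s` (for example if `X_s` is an abelian
variety, a product of curves, or a Fermat hypersurface) then it is true for the generic fibre over the finitely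
generated field `k`, and for all closed fibres `X_t` for which the image of `G_{K(t)}` is open in the image of `Γ`. These
are all `t` outside a thin subset of `S` (Hilbert's irreducibility theorem, Serre); if `S` is a curve, these are all but
finitely many closed points of bounded degree (Cadoret-Tamagawa). The same holds in characteristic `p` over a
finite field, where `D_s` is generated by the Frobenius at `s`: one semisimple Frobenius is enough.

Proof. Let `U` be stable. There is a `D`-equivariant projection `π` on `U`. The trace form is nondegenerate on the
commutant of `Δ`, because `V` is semisimple for `Δ` and the characteristic is zero. Let `P` be the element of the commutant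
with `tr(P g) = tr(π g)` for all `g` in the commutant. One shows that `P` is again a projection on `U`, and it
commutes with `D` because it is unique. No theorem on tensor products of semisimple representations is needed. The
subgroups of finite index are treated with averages (Maschke) and the theorem of Clifford.
-/

set_option autoImplicit false

namespace Pool.Agent.Results.MP_b4801b_ag.OneClosedFibre

/-- the subspace `U` is stable under the subgroup `H` of `Γ` -/
def Stable {F Γ V : Type} [Field F] [Group Γ] [AddCommGroup V] [Module F V] (r : Γ →* Module.End F V)
    (H : Subgroup Γ) (U : Submodule F V) : Prop :=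
  ∀ g ∈ H, ∀ x ∈ U, r g x ∈ U

/-- the restriction of the representation to the subgroup `H` is semisimple: every `H`-stable subspace has an
`H`-stable complement -/
def SemisimpleOn {F Γ V : Type} [Field F] [Group Γ] [AddCommGroup V] [Module F V] (r : Γ →* Module.End F V)
    (H : Subgroup Γ) : Prop :=
  ∀ U, Stable r H U → ∃ U', Stable r H U' ∧ IsCompl U U'

/-- Let `r` be a finite dimensional representation of the group `Γ` over a field of characteristic zero, `Δ` a normal
subgroup and `D` a subgroup such that `Δ D` has finite index. If `r` is semisimple on `Δ` and on `D`, then it is
semisimple on every subgroup `D'` whose image `r D'` has finite index in the image of `Γ` (that is, such that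
`D' ker r` has finite index), in particular on `Γ`. -/
theorem result (F Γ V : Type) [Field F] [CharZero F] [Group Γ] [AddCommGroup V] [Module F V]
    [FiniteDimensional F V] (r : Γ →* Module.End F V) (Δ D : Subgroup Γ) (hn : Δ.Normal)
    (hfi : (Δ ⊔ D).FiniteIndex) (hΔ : SemisimpleOn r Δ) (hD : SemisimpleOn r D) :
    SemisimpleOn r ⊤ ∧ ∀ D' : Subgroup Γ, (D' ⊔ r.ker).FiniteIndex → SemisimpleOn r D' :=
  have h : Pool.Agent.X320.FS.SSFor r ⊤ :=
    Pool.Agent.X320.FS.ss_up hfi (Pool.Agent.X320.FS.ss_join hn hΔ hD)
  ⟨h, fun _ hD' => Pool.Agent.X320.FS.ss_image hD' h⟩

end Pool.Agent.Results.MP_b4801b_ag.OneClosedFibre
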