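import Pool.Agent.H313.GE.Ss3

/-!
# Semisimplicity of the cohomology of families over abelian coverings of the base

Let `k₀` be a finitely generated field of characteristic zero, `B` a smooth projective variety of
dimension `n` over `k₀`, `𝒴 → B` a smooth projective morphism, `ℓ` a prime, `B' → B` the covering
`w_i ^ (N_i) = F_i` (`i < m`), `N_i = ℓ ^ (a_i)`, where `F_i` is a form of a degree divisible by `N_i` and
the divisors `D_i` of the `F_i` on `B` are smooth and ample with normal crossings, and `X` the fibre
product of `𝒴` and `B'` over `B`, a smooth projective variety. Let `Γ` be the absolute Galois group of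
`k₀`; it may be assumed that `k₀` contains the roots of unity of the orders `N_i`, since semisimplicity
for a subgroup of finite index is equivalent to semisimplicity. Let `E` be the field generated by these
roots of unity over the `ℓ`-adic numbers, `O` its ring of integers, `red` the reduction from `O` to the
field with `ℓ` elements (`E` is totally ramified), and `σ`, `τ` the automorphism of `E`, `O` with
`ζ ↦ ζ⁻¹` for these roots of unity; `red (τ x) = red x`.

Let `R` be one of the sheaves `R ^ j` of the `ℓ`-adic cohomology of the fibres of `𝒴 → B`, `I` a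
nonempty set of indices `i`, `U_I` the complement of the `D_i`, `i ∈ I`, in `B`, and `L` the tensor
product over `i ∈ I` of the Kummer sheaves of nontrivial characters `ψ_i` of the groups of the roots of
unity of the orders `N_i` for the `F_i`. Then only `V = H ^ n_c (U_I, R ⊗ L)` is not zero among the
cohomology groups, and the tensor product of `H ^ i (X)` with `E` is the direct sum of `H ^ i (𝒴)` and
of all the `V` for `j = i - n` (the spectral sequence of Leray degenerates, by Deligne). Since `R` is
self-dual up to a twist, by the theorem of Lefschetz, Poincaré duality gives a perfect pairing of `V`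
with the space `V'` for the characters `ψ_i⁻¹`, which is the image of `V` under a `σ`-linear map that
commutes with `Γ`: so there is a form `h` on `V` with `h (g x) (g y) = κ(g) h x y`, linear in `x` and
`σ`-linear in `y`, where `κ` is the `- (n + j)`-th power of the cyclotomic character. Let `v` be a closed
point with residue field `k` of a model over which everything has good reduction, and `Φ` the geometric
Frobenius element. For the closed points `z` of `B` over `k` let `P z = det (1 - T Frob)` be the
polynomial of the fibre at `z` in degree `j`. Then `det (1 - T Φ)` on `V` is the product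
`twistedProduct`, or its inverse if `n` is odd, and `κ(Φ) = |k| ^ (n + j)`. If `B` is a curve then `𝒴 → B`
may have singular fibres over points which are not in the `D_i`; then `R ⊗ L` is to be replaced by the
direct image from the open set of the smooth fibres.
-/

set_option autoImplicit false
set_option linter.all false
set_option maxHeartbeats 4000000

open Polynomial NumberField Module

namespace Pool.Agent.Results.MP_b4801b_ag.SemisimpleTwistedFamilies

open Pool.Agent.H313.GE.Pts

/-- The form `h` on `V`, linear in the first and `σ`-linear in the second variable, is not degenerate,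
and the group acts by similitudes with the factors `κ g`. -/
structure IsPolarized {Γ E V : Type} [Group Γ] [Field E] [AddCommGroup V] [Module E V] (σ : E ≃+* E)
    (ρ : Representation E Γ V) (κ : Γ → E) (h : V →ₗ[E] V →ₛₗ[(σ : E →+* E)] E) : Prop where
  nondegenerate : ∀ y, (∀ x, h x y = 0) → y = 0
  similitude : ∀ g x y, h (ρ g x) (ρ g y) = κ g * h x y

/-- The reduction at a place: the residue field `k`, the reductions of the equations `G i` of `B`, of
the forms `F i` and of the characters `ψ i`, the set `I`, the polynomials `P z` of the fibres, and the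
Frobenius element `Φ`. -/
structure Place (ℓ n w : ℕ) (O : Type) {E Γ V : Type} [CommRing O] [Field E] [Algebra O E] [Group Γ]
    [AddCommGroup V] [Module E V] [FiniteDimensional E V] (ρ : Representation E Γ V)
    (κ : Γ → E) : Type 1 where
  k : Type
  [field : Field k]
  [finite : Finite k]
  K : Type
  [fieldK : Field K]
  [numberField : NumberField K]
  φ : 𝓞 K →+* O
  (M s m : ℕ)
  G : Fin s → MvPolynomial (Fin (M + 1)) k
  F : Fin m → MvPolynomial (Fin (M + 1)) k
  ψ : Fin m → MulChar k (𝓞 K)
  I : Finset (Fin m)
  nonempty : I.Nonempty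
  a : Fin m → ℕ
  order : ∀ i ∈ I, ψ i ≠ 1 ∧ ψ i ^ ℓ ^ a i = 1
  P : Pt G → ℤ[X]
  constant : ∀ z, (P z).coeff 0 = 1
  D : (𝓞 K)[X]
  polynomial : IsSigned n (twistedProduct G F P ψ I) D
  Φ : Γ
  det : D.map ((algebraMap O E).comp φ) = (LinearMap.charpoly (ρ Φ)).reverse
  factor : κ Φ = (Nat.card k : E) ^ w

/-- The condition for the dimension `d` at the place: the product of the `P z (T ^ (deg z))` over the
closed points `z` of `U_I`, or its inverse if `n` is odd, is modulo `ℓ` a polynomial `H` of the degree
`dim V` which is not divisible by a product of a polynomial `A` of degree `d` and its reciprocal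
polynomial `T ^ (deg A) A(1 / T)`. -/
def Place.Condition {ℓ n w : ℕ} {O E Γ V : Type} [CommRing O] [Field E] [Algebra O E] [Group Γ]
    [AddCommGroup V] [Module E V] [FiniteDimensional E V] {ρ : Representation E Γ V}
    {κ : Γ → E} (v : Place ℓ n w O ρ κ) (d : ℕ) : Prop :=
  letI := v.field
  ∃ H : (ZMod ℓ)[X], IsSigned n
    (PowerSeries.map (Int.castRingHom (ZMod ℓ)) (openProduct v.G v.F v.P v.I)) H ∧
    H.natDegree = finrank E V ∧ ∀ A : (ZMod ℓ)[X], A.natDegree = d → ¬ A * A.reverse ∣ H

/-- **Semisimplicity of the cohomology of families over abelian coverings.** Suppose that for each of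
the summands `V i` (for every `j`, `I` and all characters) and every `d > 0` with `2 d ≤ dim V i` there
is a place which satisfies the condition above. Then the direct sum of the `V i` is a semisimple
representation of the Galois group. So `H ^ i (X, ℚ_ℓ)` is semisimple for all `i` if this holds for `𝒴`.

One place satisfies the condition for all `d` if `H` is squarefree and all its irreducible factors are
reciprocal polynomials, up to constants. The condition does not depend on the covering and on the
characters, but only, modulo `ℓ`, on the numbers of the points of the fibres of `𝒴 → B` and on the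
branch divisors `D_i` over the residue field of `v` and its extensions; one place for every `j` and every
`I` is enough for all coverings of `ℓ`-power degrees which are branched along the `D_i`. The case of the
constant family with fibre `Y` is the one of the products of `Y` and `B'`. -/
theorem result (ℓ : ℕ) (hℓ : ℓ.Prime) (n : ℕ) (O E : Type) [CommRing O] [IsDomain O]
    [IsIntegrallyClosed O] [Field E] [CharZero E] [Algebra O E] [IsFractionRing O E]
    (red : O →+* ZMod ℓ) (τ : O →+* O) (hτ : ∀ x, red (τ x) = red x) (σ : E ≃+* E)
    (hσ : ∀ x : O, σ (algebraMap O E x) = algebraMap O E (τ x)) (Γ : Type) [Group Γ]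
    (ι : Type) [Finite ι] (V : ι → Type) [∀ i, AddCommGroup (V i)] [∀ i, Module E (V i)]
    [∀ i, FiniteDimensional E (V i)] (ρ : ∀ i, Representation E Γ (V i)) (κ : ι → Γ → E)
    (h : ∀ i, V i →ₗ[E] V i →ₛₗ[(σ : E →+* E)] E) (hh : ∀ i, IsPolarized σ (ρ i) (κ i) (h i))
    (w : ι → ℕ) (hv : ∀ i, ∀ d : ℕ, 0 < d → 2 * d ≤ finrank E (V i) →
      ∃ v : Place ℓ n (w i) O (ρ i) (κ i), v.Condition d)
    (W : Submodule E (∀ i, V i))
    (hW : ∀ g : Γ, ∀ x ∈ W, (fun i => ρ i g (x i)) ∈ W) :
    ∃ W' : Submodule E (∀ i, V i), (∀ g : Γ, ∀ x ∈ W', (fun i => ρ i g (x i)) ∈ W') ∧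
      IsCompl W W' := by
  have hF : Fact ℓ.Prime := ⟨hℓ⟩
  have hρ : ∀ i, (ρ i).IsSemisimpleRepresentation := by
    intro i
    refine Pool.Agent.H313.GE.semisimple_of_dets red τ (ρ i) hτ hσ (h i) (hh i).nondegenerate (κ i)
      (hh i).similitude fun d hd hd2 => ?_
    obtain ⟨v, H, hH, hdeg, hns⟩ := hv i d hd hd2
    letI := v.field
    haveI := v.finite
    letI := v.fieldK
    haveI := v.numberField
    obtain ⟨hD0, hmod⟩ := twisted_mod v.G v.F v.P v.constant v.ψ v.I v.a
      (fun j hj => (v.order j hj).2) v.polynomial hH
    have hr := hmod (ZMod ℓ) (red.comp v.φ)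
    have hid : H.map (ZMod.castHom (dvd_refl ℓ) (ZMod ℓ)) = H := by
      have : ZMod.castHom (dvd_refl ℓ) (ZMod ℓ) = RingHom.id _ := Subsingleton.elim _ _
      rw [this, Polynomial.map_id]
    rw [hid, ← Polynomial.map_map] at hr
    obtain ⟨j, hj⟩ := v.nonempty
    obtain ⟨hj1, hj2⟩ := v.order j hj
    obtain ⟨b, hb, hbo⟩ := (Nat.dvd_prime_pow hℓ).1 (orderOf_dvd_of_pow_eq_one hj2)
    have hb0 : b ≠ 0 := by
      rintro rfl
      rw [pow_zero, orderOf_eq_one_iff] at hbo
      exact hj1 hbo
    have hdk : ℓ ∣ Nat.card v.k - 1 :=
      (dvd_pow_self ℓ hb0).trans (Pool.Agent.TH639.CK.card_dvd hbo)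
    have hk1 : (Nat.card v.k : ZMod ℓ) = 1 := by
      have h1 : 1 ≤ Nat.card v.k := Nat.card_pos
      have h2 : ((Nat.card v.k - 1 : ℕ) : ZMod ℓ) = 0 := (ZMod.natCast_eq_zero_iff _ _).2 hdk
      rw [Nat.cast_sub h1, Nat.cast_one, sub_eq_zero] at h2
      exact h2
    refine ⟨v.Φ, (Nat.card v.k : O) ^ w i, v.D.map v.φ, ?_, ?_, ?_, ?_, ?_, ?_⟩
    · rw [map_pow, map_natCast, hk1, one_pow]
    · rw [v.factor, map_pow, map_natCast]
    · rw [Polynomial.coeff_map, hD0, map_one]
    · rw [Polynomial.map_map, v.det]
    · rw [hr, hdeg]
    · rw [hr]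
      exact hns
  have hs := Pool.Agent.H313.GE.piRep_semisimple ρ hρ
  obtain ⟨W', hW'⟩ := hs.exists_isCompl (⟨W, fun g x hx => hW g x hx⟩ : Subrepresentation
    (Pool.Agent.H313.GE.piRep ρ))
  refine ⟨W'.toSubmodule, fun g x hx => W'.apply_mem_toSubmodule g hx, ?_⟩
  have h1 := congrArg Subrepresentation.toSubmodule hW'.inf_eq_bot
  have h2 := congrArg Subrepresentation.toSubmodule hW'.sup_eq_top
  exact IsCompl.of_eq h1 h2

end Pool.Agent.Results.MP_b4801b_ag.SemisimpleTwistedFamilies
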