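import Pool.Agent.X306.JC.M

/-!
# A zero-one law for the semisimplicity of the Galois representations on the cohomology

Let `k` be a field, `Γ` its absolute Galois group and `ℓ` a prime number different from the characteristic. For a smooth
proper variety `X` over `k` let `b(X)` be its total Betti number and let `s(X)` be the dimension of the largest semisimple
subrepresentation (the socle) of the representation of `Γ` on `⨁ H^i(X ⊗ k̄, ℚ̄_ℓ)`. So `s(X) = b(X)` if and only if all
the `H^i(X ⊗ k̄, ℚ̄_ℓ)` are semisimple. (A representation over `ℚ_ℓ` is semisimple if and only if it is after the extension
of the scalars to `ℚ̄_ℓ`.)

**Theorem.** (1) Either all the representations `H^i(X ⊗ k̄, ℚ̄_ℓ)` are semisimple, or for ALL smooth proper varieties `Y`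
over `k` and all `n`

  `s(Y × X^n) ≤ N(b(X), n) · b(Y) ≤ √(b(X) / (2 (n + 1))) · b(Y × X^n)`,

`N(b, n) = ∑_k (n choose k) (b - 2)^(n - k) (k choose k/2)`.

For example (`n = 1`): if the largest semisimple subrepresentation of the cohomology of `Y × X` has codimension less than
`b(Y)` for one single `Y`, then the cohomology of `X` is semisimple. The number `N(b, n)` can not be improved for
representations of groups: it is the dimension of the socle of `V^{⊗ n}` for the representation `V` of the additive group
which is the sum of the block of size two and of `b - 2` trivial representations.

(2) Let `C` be a class of varieties which is closed under products and contains a curve, for example all smooth projective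
varieties over `k`. The representations `H^i(X ⊗ k̄, ℚ̄_ℓ)` are semisimple for all `X ∈ C` and all `i` if (and only if) for
some function `f` with `limsup f(d) √d = ∞`, for example a positive constant,

  `s(Z) ≥ f(dim Z) · b(Z)`   for all `Z ∈ C`.

So the conjecture of Grothendieck and Serre (for the field `k`) is equivalent to the much weaker looking statement that
there is `ε > 0` such that for all smooth projective varieties `Z` over `k` at least the part `ε` of the cohomology is
semisimple.

The data `T : Cohomology Γ k E` are the cohomology groups `H^i(X ⊗ k̄, ℚ̄_ℓ)` (`E = ℚ̄_ℓ`) with the action of `Γ`, and
`T.IsCohomology` collects the known properties: they are finite-dimensional, the Künneth formula holds, the dimension of a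
product is the sum of the dimensions, and the representation is virtually neat: an open subgroup of `Γ` acts by elements
for which the quotient of two different eigenvalues is never a root of unity (this holds for all continuous `ℓ`-adic
representations of profinite groups, by the congruence subgroup of level `ℓ^2` of `GL_n(ℤ_ℓ)`).

## The proof

Let `V` and `W_0` be the cohomology of `X` and of `Y`, and `W_n = W_0 ⊗ V^{⊗ n}`. Let `L` be the Lie algebra of all pairs
`(x, y)` of endomorphisms of `V` and `W_0` such that the induced derivations preserve all the `Γ`-stable subspaces of `V`
and of all `W_n`. For `γ ∈ Γ` with the Jordan decomposition `γ = s exp(N)` it contains the pair of the logarithms `N` and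
the pairs of the endomorphisms `φ(s)`, for all homomorphisms `φ` from the multiplicative group of `E` to the additive
group. So (the functions `φ` separate the eigenvalues of a neat element) the subspaces of `V` which are stable under `L`
are stable under a subgroup of finite index of `Γ`. If `V` is semisimple for `L`, then averaging shows that it is
semisimple for `Γ`.

Suppose that `V` is not semisimple for `Γ`, so not for `L`. Then some element `r` of the radical of `L` is not
diagonalizable on `V`: otherwise the radical acts centrally and diagonalizably on `V`, and by the theorem of Weyl `V` is
semisimple for `L`. On the other hand the group `Γ` normalizes `L`, so a simple subrepresentation of `W_n` is semisimple for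
`L`, and `r` acts diagonalizably on it, by scalars on the simple submodules for `L` (theorem of Lie). Hence `s(Y × X^n)` is
at most the dimension of the sum of the eigenspaces of the derivation of `W_n` induced by `r`.

This number is estimated as in `MP_b685ef_ag.JordanBlockLaw`, with derivations in the place of the automorphisms: there is a
block of size two in `V`; the sum of the eigenspaces is subadditive for exact sequences; the powers of a nilpotent block
of size two are computed by the exact sequences `0 → P_{r-1} → P_r ⊕ P_r → P_{r+1} → 0` of polynomials with the
derivative; the number of blocks is at most the number of walks of length `m` on the positive integers from `1`, which is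
a central binomial coefficient; and the sum over the binomial distribution is estimated by the inequality of Cauchy and
Schwarz.
-/

set_option autoImplicit false

universe u v w

namespace Pool.Agent.Results.MP_b4801b_ag.SemisimplicityLaw

open Pool.Agent.X306.JC

/-- (1) the cohomology of `X` is semisimple if and only if its largest semisimple subrepresentation is everything;
(2) the law: either the cohomology of `X` is semisimple or the largest semisimple subrepresentations of the cohomology of
all the varieties `Y × X ^ n` are small; (3) in a class of varieties which is closed under products and contains a curve
the cohomology of all the varieties is semisimple if and only if a part of it is. -/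
theorem result {Γ : Type w} [Group Γ] {k : Type u} [Field k] {E : Type v} [Field E] [IsAlgClosed E] [CharZero E]
    (T : Cohomology Γ k E) (hT : T.IsCohomology) :
    (∀ X : Variety k, T.Semisimple X ↔ T.soc X = T.betti X) ∧
    (∀ X : Variety k, T.Semisimple X ∨ T.FewSemisimple X) ∧
    ∀ C : Set (Variety k), T.IsProductClass C → ((∀ X ∈ C, T.Semisimple X) ↔ T.MuchSemisimple C) := by
  refine ⟨fun X => Cohomology.semisimple_iff_soc hT X, fun X => ?_, fun C hC => ?_⟩
  · by_cases h : T.Semisimple X
    · exact Or.inl h
    · exact Or.inr (Cohomology.law hT X h)
  · obtain ⟨hC1, Z, hZ, hZ1, hZ0⟩ := hC
    exact Cohomology.class_iff hT C hC1 Z hZ hZ1 hZ0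

end Pool.Agent.Results.MP_b4801b_ag.SemisimplicityLaw
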